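import Pool.Agent.Helper70.GUM.St1

/-!
# Project GUM, module FF: the quadratic extension of finite fields
-/

set_option autoImplicit false

namespace Pool.Agent.Helper55.GUM

open Pool.Agent.Helper70.GUM Module OG UN

universe u v w z

/-- the norm map on units -/
private noncomputable def nm {k : Type u} {F : Type v} [Field k] [Field F] [Algebra k F]
    (σ : F ≃ₐ[k] F) : Fˣ →* Fˣ :=
  (MonoidHom.id Fˣ) * (Units.map (σ : F →* F))

private theorem nm_val {k : Type u} {F : Type v} [Field k] [Field F] [Algebra k F]
    (σ : F ≃ₐ[k] F) (a : Fˣ) : ((nm σ a : Fˣ) : F) = (a : F) * σ (a : F) := by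
  simp [nm]

open scoped Classical in
theorem hFF : StFF.{u, v} := by
  intro k F _ _ _ _ σ hσ
  have hfd : Module.Finite k F := Module.finite_of_finrank_pos (by rw [hσ.dim]; norm_num)
  have hF : Finite F := Module.finite_of_finite k
  have hcard : Nat.card F = (Nat.card k) ^ 2 := by
    rw [Module.natCard_eq_pow_finrank (K := k) (V := F), hσ.dim]
  refine ⟨hcard, ?_⟩
  have hq2 : 2 ≤ Nat.card k := by
    have := Finite.one_lt_card (α := k)
    omega
  -- the range of the norm
  have hinj : Function.Injective (Units.map ((algebraMap k F : k →+* F) : k →* F)) := by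
    apply Units.map_injective
    exact (algebraMap k F).injective
  have hrange : (nm σ).range = (Units.map ((algebraMap k F : k →+* F) : k →* F)).range := by
    ext y
    constructor
    · rintro ⟨a, rfl⟩
      obtain ⟨c, hc⟩ := hσ.fix ((a : F) * σ (a : F)) (by rw [map_mul, hσ.inv, mul_comm])
      have hc0 : c ≠ 0 := by
        rintro rfl
        rw [map_zero] at hc
        rcases mul_eq_zero.1 hc.symm with h | h
        · exact a.ne_zero h
        · exact a.ne_zero ((map_eq_zero_iff σ σ.injective).1 h)
      refine ⟨Units.mk0 c hc0, ?_⟩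
      apply Units.ext
      rw [nm_val]
      simpa using hc
    · rintro ⟨c, rfl⟩
      obtain ⟨x, hx⟩ := hσ.nrm (c : k)
      have hx0 : x ≠ 0 := by
        rintro rfl
        rw [zero_mul] at hx
        exact c.ne_zero ((map_eq_zero_iff _ (algebraMap k F).injective).1 hx.symm)
      refine ⟨Units.mk0 x hx0, ?_⟩
      apply Units.ext
      rw [nm_val]
      simpa using hx
  have hr : Nat.card (nm σ).range = Nat.card k - 1 := by
    rw [hrange]
    have e1 : Nat.card (Units.map ((algebraMap k F : k →+* F) : k →* F)).range = Nat.card kˣ :=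
      (Nat.card_congr (MonoidHom.ofInjective hinj).toEquiv).symm
    rw [e1, Nat.card_units]
  have hker : Nat.card (nm σ).ker = Nat.card k + 1 := by
    have e1 := (nm σ).ker.card_mul_index
    rw [Subgroup.index_ker, hr, Nat.card_units, hcard] at e1
    have e2 : (Nat.card k + 1) * (Nat.card k - 1) = (Nat.card k) ^ 2 - 1 := by
      obtain ⟨m, hm⟩ := Nat.exists_eq_add_of_le hq2
      rw [hm]
      have : (2 + m) ^ 2 = (2 + m + 1) * (2 + m - 1) + 1 := by
        have : 2 + m - 1 = m + 1 := by omega
        rw [this]; ring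
      omega
    rw [← e2] at e1
    exact Nat.eq_of_mul_eq_mul_right (by omega) e1
  obtain ⟨g, hg⟩ := IsCyclic.exists_generator (α := (nm σ).ker)
  have hord : orderOf g = Nat.card k + 1 := by
    rw [orderOf_eq_card_of_forall_mem_zpowers hg, hker]
  have hval : ∀ j : ℕ, ((g : Fˣ) : F) ^ j = 1 ↔ g ^ j = 1 := by
    intro j
    constructor
    · intro h
      apply Subtype.ext
      apply Units.ext
      simpa using h
    · intro h
      have := congrArg (fun t : (nm σ).ker => ((t : Fˣ) : F)) h
      simpa using this
  refine ⟨((g : Fˣ) : F), ?_, ?_, ?_, ?_⟩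
  · have h1 : nm σ (g : Fˣ) = 1 := g.2
    have h2 := congrArg (fun t : Fˣ => (t : F)) h1
    simp only [nm_val, Units.val_one] at h2
    exact h2
  · rw [hval, ← hord]
    exact pow_orderOf_eq_one g
  · intro j h1 h2 h3
    rw [hval] at h3
    have := orderOf_le_of_pow_eq_one (by omega) h3
    omega
  · intro t ht
    have ht0 : t ≠ 0 := by
      rintro rfl
      simp at ht
    have hmem : Units.mk0 t ht0 ∈ (nm σ).ker := by
      rw [MonoidHom.mem_ker]
      apply Units.ext
      rw [nm_val]
      simpa using ht
    have h1 := hg ⟨Units.mk0 t ht0, hmem⟩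
    rw [mem_zpowers_iff_mem_range_orderOf, Finset.mem_image] at h1
    obtain ⟨j, hj, hj'⟩ := h1
    rw [Finset.mem_range, hord] at hj
    refine ⟨j, by omega, ?_⟩
    have := congrArg (fun s : (nm σ).ker => ((s : Fˣ) : F)) hj'
    simpa using this.symm

end Pool.Agent.Helper55.GUM
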