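import Pool.Agent.Helper70.GUM.St3

/-!
# Project GUM, module JB: small nondegenerate spaces
-/

set_option autoImplicit false

namespace Pool.Agent.Helper55.GUT

open Module _root_.GUM Pool.Agent.Helper70.GUM Pool.Agent.Helper70.GUT
open UN (QE)
open OG (act Bd Stb steps Ch Wt)

universe u v w z y o

theorem hJB : StJB.{u, v, y} := by
  intro k F _ _ _ X _ _ _ σ hσ B hH Y hND
  refine ⟨?_, ?_, ?_⟩
  · intro hY j hj
    rw [Set.eq_empty_iff_forall_notMem]
    rintro W ⟨hWY, hWj, hW0⟩
    -- a nonzero vector of W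
    have hWne : W ≠ ⊥ := by
      rintro rfl
      rw [finrank_bot] at hWj
      omega
    obtain ⟨p, hpW, hp0⟩ := Submodule.exists_mem_ne_zero_of_ne_bot hWne
    obtain ⟨p', hp'⟩ := hH.exHP Y p hND (hWY hpW) hp0 (hW0 p hpW p hpW)
    -- a second vector of W
    have hspan : ∃ w ∈ W, w ∉ Submodule.span F {p} := by
      by_contra hcon
      push Not at hcon
      have h1 : W ≤ Submodule.span F {p} := fun w hw => hcon w hw
      have h2 := Submodule.finrank_mono h1
      rw [finrank_span_singleton hp0] at h2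
      omega
    obtain ⟨w, hwW, hw⟩ := hspan
    have haW : w - B.f w p' • p ∈ W := W.sub_mem hwW (W.smul_mem _ hpW)
    have ha0 : w - B.f w p' • p ≠ 0 := by
      intro h
      apply hw
      rw [sub_eq_zero] at h
      rw [h]
      exact Submodule.smul_mem _ _ (Submodule.mem_span_singleton_self p)
    have hap' : B.f (w - B.f w p' • p) p' = 0 := by
      rw [B.sub_l, B.smul, hp'.b]
      ring
    generalize w - B.f w p' • p = a at haW ha0 hap'
    have happ : a ∈ pp B Y p p' := mem_pp.2 ⟨hWY haW, hW0 a haW p hpW, hap'⟩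
    have hfr := hH.fr Y p p' hp'
    have hle : finrank F (pp B Y p p') ≤ 1 := by omega
    obtain ⟨b, hb, hab⟩ := hH.nd Y p p' hp' hND a happ ha0
    obtain ⟨v, hv⟩ := finrank_le_one_iff.1 hle
    obtain ⟨c1, hc1⟩ := hv ⟨a, happ⟩
    obtain ⟨c2, hc2⟩ := hv ⟨b, hb⟩
    have e1 : c1 • (v : X) = a := congrArg Subtype.val hc1
    have e2 : c2 • (v : X) = b := congrArg Subtype.val hc2
    have hc10 : c1 ≠ 0 := by
      rintro rfl
      rw [zero_smul] at e1
      exact ha0 e1.symm
    have e3 : b = (c2 * c1⁻¹) • a := by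
      rw [← e1, smul_smul, mul_assoc, inv_mul_cancel₀ hc10, mul_one, e2]
    apply hab
    rw [e3, B.smul_r, hW0 a haW a haW, mul_zero]
  · rintro W ⟨hWY, hW1, hW0⟩
    have hWne : W ≠ ⊥ := by
      rintro rfl
      rw [finrank_bot] at hW1
      omega
    obtain ⟨p, hpW, hp0⟩ := Submodule.exists_mem_ne_zero_of_ne_bot hWne
    exact ⟨p, hWY hpW, hp0, hW0 p hpW p hpW⟩
  · intro p p' hp
    have := hH.fr Y p p' hp
    omega

end Pool.Agent.Helper55.GUT
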